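import Pool.Agent.helper48.TH.Spec2

/-!
# Project TH, row SUG: the expected number of bad sites for a random set with decoupling
-/

set_option autoImplicit false

namespace TP.TW

open DP MeasureTheory Finset

lemma SUG_box (D : Finset V) (τ : ℤ × ℤ) (R : ℕ) (w : V) :
    #(D.filter fun v => sd (v.1 + τ.1, v.2 + τ.2) w ≤ R) ≤ (2 * R + 1) ^ 2 := by
  have h : #(D.filter fun v => sd (v.1 + τ.1, v.2 + τ.2) w ≤ R) ≤
      #(Icc (w.1 - R) (w.1 + R) ×ˢ Icc (w.2 - R) (w.2 + R)) := by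
    refine card_le_card_of_injOn (fun v => (v.1 + τ.1, v.2 + τ.2)) ?_ ?_
    · intro v hv
      have h1 := (mem_filter.mp (mem_coe.mp hv)).2
      unfold sd at h1
      rw [max_le_iff] at h1
      obtain ⟨h2, h3⟩ := h1
      simp only at h2 h3
      rw [mem_coe, mem_product, mem_Icc, mem_Icc]
      refine ⟨⟨?_, ?_⟩, ?_, ?_⟩ <;> simp only <;> omega
    · intro v _ v' _ he
      simp only [Prod.mk.injEq] at he
      obtain ⟨h2, h3⟩ := he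
      refine Prod.ext ?_ ?_ <;> omega
  refine h.trans (le_of_eq ?_)
  rw [card_product, Int.card_Icc, Int.card_Icc]
  have e1 : (w.1 + (R : ℤ) + 1 - (w.1 - R)).toNat = 2 * R + 1 := by omega
  have e2 : (w.2 + (R : ℤ) + 1 - (w.2 - R)).toNat = 2 * R + 1 := by omega
  rw [e1, e2]
  ring

lemma SUG_dc (D S : Finset V) (τ : ℤ × ℤ) (R : ℕ) (g : V → ℝ) (hg : ∀ v, 0 ≤ g v) :
    ∑ v₀ ∈ D, ∑ w ∈ S.filter (fun w => sd (v₀.1 + τ.1, v₀.2 + τ.2) w ≤ R), g w ≤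
      (2 * (R : ℝ) + 1) ^ 2 * ∑ w ∈ S, g w := by
  simp_rw [sum_filter]
  rw [sum_comm, mul_sum]
  refine sum_le_sum fun w _ => ?_
  rw [← sum_filter, sum_const, nsmul_eq_mul]
  refine mul_le_mul_of_nonneg_right ?_ (hg w)
  have h := SUG_box D τ R w
  have h' : ((#(D.filter fun v => sd (v.1 + τ.1, v.2 + τ.2) w ≤ R) : ℕ) : ℝ)
      ≤ (((2 * R + 1) ^ 2 : ℕ) : ℝ) := by exact_mod_cast h
  push_cast at h'
  exact h'

lemma SUG_log (n : ℕ) (hn : 2 ≤ n) : (1 : ℝ) ≤ 2 * Real.log n ∧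
    ((Nat.log 2 n + 1 : ℕ) : ℝ) ≤ 4 * Real.log n ∧
    ∀ s ∈ range (Nat.log 2 n + 1), Real.log (((2 ^ s : ℕ) : ℝ) + 2) ≤ 2 * Real.log n := by
  have hl2 : (1 : ℝ) / 2 < Real.log 2 := by
    have := Real.log_two_gt_d9
    linarith
  have hn' : (2 : ℝ) ≤ n := by exact_mod_cast hn
  have h1 : Real.log 2 ≤ Real.log n := Real.log_le_log (by norm_num) hn'
  have h2 : (Nat.log 2 n : ℝ) * Real.log 2 ≤ Real.log n := by
    rw [← Real.log_pow]
    refine Real.log_le_log (by positivity) ?_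
    exact_mod_cast Nat.pow_log_le_self 2 (by omega)
  have h3 : (0 : ℝ) ≤ (Nat.log 2 n : ℝ) := Nat.cast_nonneg _
  refine ⟨by linarith, ?_, ?_⟩
  · push_cast
    nlinarith
  · intro s hs
    have hs' : s ≤ Nat.log 2 n := by
      have := mem_range.mp hs
      omega
    have h4 : 2 ^ s ≤ n := (Nat.pow_le_pow_right (by norm_num) hs').trans (Nat.pow_log_le_self 2 (by omega))
    have h5 : ((2 ^ s : ℕ) : ℝ) ≤ n := by exact_mod_cast h4
    have h6 : ((2 ^ s : ℕ) : ℝ) + 2 ≤ (n : ℝ) ^ 2 := by nlinarith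
    have h7 : Real.log (((2 ^ s : ℕ) : ℝ) + 2) ≤ Real.log ((n : ℝ) ^ 2) :=
      Real.log_le_log (by positivity) h6
    rw [Real.log_pow] at h7
    exact_mod_cast h7

lemma SUG_prob : IsProbabilityMeasure DP.P1 := by
  unfold DP.P1
  infer_instance

lemma SUG_univ : Pr (Set.univ : Set (V → Bool)) = 1 := by
  have hprob := SUG_prob
  unfold DP.Pr
  exact probReal_univ

lemma SUG_one (S : (V → Bool) → Finset V) (w : V → ℝ) (R : ℕ) (K : ℝ) (h : DEC S w R K) (v : V) :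
    Pr {β | v ∈ S β} ≤ K * Real.log 4 ^ R * w v := by
  have h1 := h {((0 : ℤ), (0 : ℤ))} {v} ∅ v Set.univ
    (by
      intro b b' _
      simp)
    (by
      intro u hu τ hτ
      rw [mem_singleton] at hτ
      subst hτ
      simp only [insert_empty_eq, mem_singleton] at hu
      subst hu
      simp)
  rw [sum_singleton, sum_singleton, SUG_univ] at h1
  have e1 : Real.log (1 / 1) + Real.log (((#({((0 : ℤ), (0 : ℤ))} : Finset V) : ℕ) : ℝ) +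
      ((#(∅ : Finset V) : ℕ) : ℝ) + 3) = Real.log 4 := by
    rw [card_singleton, card_empty]
    norm_num
  have e2 : (Set.univ ∩ {β : V → Bool | (v.1 - (((0 : ℤ), (0 : ℤ)) : V).1, v.2 - (((0 : ℤ), (0 : ℤ)) : V).2) ∈
      S (fun u => β (u.1 + (((0 : ℤ), (0 : ℤ)) : V).1, u.2 + (((0 : ℤ), (0 : ℤ)) : V).2))}) = {β | v ∈ S β} := by
    ext β
    simp
  rw [e1, e2] at h1
  linarith

theorem SUG (cv : CV_stmt) (spg : SPG_stmt) : SUG_stmt := by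
  have hprob := SUG_prob
  intro R
  obtain ⟨C₀, hC₀, hSPG⟩ := spg R
  have hl4 : 0 < Real.log 4 := Real.log_pos (by norm_num)
  refine ⟨401 ^ 2 * Real.log 4 ^ R * 2 ^ (R + 1) + 4 * (2 * 801 ^ 2) * (81 * C₀) * 2 ^ R, by positivity, ?_⟩
  intro n S Ω w K hn hΩ hRS
  obtain ⟨-, hS, -, hw, -, hK, hDEC⟩ := id hRS
  set D : Finset V := (univ : Finset (Fin n × Fin n)).image phi with hD
  set I : Finset (ℕ × Bool × ℤ × ℤ) := range (Nat.log 2 n + 1) ×ˢ (univ : Finset Bool) ×ˢ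
    Icc (-400 : ℤ) 400 ×ˢ Icc (-400 : ℤ) 400 with hI
  have hIc : (#I : ℝ) = ((Nat.log 2 n + 1 : ℕ) : ℝ) * (2 * 801 ^ 2) := by
    have e0 : ((400 : ℤ) + 1 - (-400)).toNat = 801 := by decide
    rw [hI, card_product, card_product, card_product, card_range, Int.card_Icc, e0, card_univ,
      Fintype.card_bool]
    push_cast
    ring
  obtain ⟨hlog1, hlog2, hlog3⟩ := SUG_log n hn
  have hln : 0 ≤ Real.log n := by linarith
  set W : ℝ := ∑ v ∈ Ω, w v with hW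
  have hW0 : 0 ≤ W := sum_nonneg fun v _ => hw v
  have h1 : ∀ v₀ ∈ D, Pr {β | BAD (col β) (S β) v₀} ≤
      (∑ v ∈ Ω.filter (fun v => sd v₀ v ≤ 200), K * Real.log 4 ^ R * w v) +
      ∑ i ∈ I, C₀ * K * Real.log (((2 ^ i.1 : ℕ) : ℝ) + 2) ^ R *
        (∑ v ∈ Ω.filter (fun v => sd (v₀.1 + 2 ^ i.1 * i.2.2.1, v₀.2 + 2 ^ i.1 * i.2.2.2) v ≤ 4 * 2 ^ i.1), w v)
          / (((2 ^ i.1 : ℕ) : ℝ)) ^ 2 := by
    intro v₀ hv₀
    have hsub : {β | BAD (col β) (S β) v₀} ⊆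
        (⋃ v ∈ Ω.filter (fun v => sd v₀ v ≤ 200), {β | v ∈ S β}) ∪
        ⋃ i ∈ I, {β | SR (col β) i.2.1 (S β)
          (v₀.1 + 2 ^ i.1 * i.2.2.1, v₀.2 + 2 ^ i.1 * i.2.2.2) (2 ^ i.1)} := by
      intro β hβ
      have hβ' : BAD (col β) (S β) v₀ := hβ
      rcases cv n (col β) (S β) v₀ hn ((hS β).trans hΩ) hv₀ hβ' with
        ⟨u, hu, hu2⟩ | ⟨s, hs, k, p, hp, q, hq, hSR⟩
      · left
        rw [Set.mem_iUnion₂]
        exact ⟨u, mem_filter.mpr ⟨hS β hu, hu2⟩, hu⟩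
      · right
        rw [Set.mem_iUnion₂]
        refine ⟨(s, k, p, q), ?_, hSR⟩
        rw [hI, mem_product, mem_product, mem_product]
        exact ⟨hs, mem_univ _, hp, hq⟩
    have h6 : Pr {β | BAD (col β) (S β) v₀} ≤
        Pr (⋃ v ∈ Ω.filter (fun v => sd v₀ v ≤ 200), {β | v ∈ S β}) +
        Pr (⋃ i ∈ I, {β | SR (col β) i.2.1 (S β)
          (v₀.1 + 2 ^ i.1 * i.2.2.1, v₀.2 + 2 ^ i.1 * i.2.2.2) (2 ^ i.1)}) := by
      unfold DP.Pr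
      refine (measureReal_mono hsub (measure_ne_top _ _)).trans ?_
      exact measureReal_union_le _ _
    refine h6.trans (add_le_add ?_ ?_)
    · have h7 : Pr (⋃ v ∈ Ω.filter (fun v => sd v₀ v ≤ 200), {β | v ∈ S β}) ≤
          ∑ v ∈ Ω.filter (fun v => sd v₀ v ≤ 200), Pr {β | v ∈ S β} := by
        unfold DP.Pr
        exact measureReal_biUnion_finset_le _ _
      exact h7.trans (sum_le_sum fun v _ => SUG_one S w R K hDEC v)
    · have h7 : Pr (⋃ i ∈ I, {β | SR (col β) i.2.1 (S β)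
          (v₀.1 + 2 ^ i.1 * i.2.2.1, v₀.2 + 2 ^ i.1 * i.2.2.2) (2 ^ i.1)}) ≤
          ∑ i ∈ I, Pr {β | SR (col β) i.2.1 (S β)
          (v₀.1 + 2 ^ i.1 * i.2.2.1, v₀.2 + 2 ^ i.1 * i.2.2.2) (2 ^ i.1)} := by
        unfold DP.Pr
        exact measureReal_biUnion_finset_le _ _
      exact h7.trans (sum_le_sum fun i _ => hSPG S Ω w K i.2.1 _ (2 ^ i.1) Nat.one_le_two_pow hRS)
  have h9 : ∑ v₀ ∈ D, ∑ v ∈ Ω.filter (fun v => sd v₀ v ≤ 200), K * Real.log 4 ^ R * w v ≤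
      401 ^ 2 * (K * Real.log 4 ^ R * W) := by
    have h11 := SUG_dc D Ω (0, 0) 200 (fun v => K * Real.log 4 ^ R * w v)
      (fun v => mul_nonneg (by positivity) (hw v))
    simp only [add_zero] at h11
    rw [← mul_sum] at h11
    refine h11.trans (le_of_eq ?_)
    rw [← hW]
    norm_num
  have h12 : ∀ i ∈ I, ∑ v₀ ∈ D, C₀ * K * Real.log (((2 ^ i.1 : ℕ) : ℝ) + 2) ^ R *
        (∑ v ∈ Ω.filter (fun v => sd (v₀.1 + 2 ^ i.1 * i.2.2.1, v₀.2 + 2 ^ i.1 * i.2.2.2) v ≤ 4 * 2 ^ i.1), w v)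
          / (((2 ^ i.1 : ℕ) : ℝ)) ^ 2
      ≤ C₀ * K * (2 * Real.log n) ^ R * (81 * W) := by
    intro i hi
    have his : i.1 ∈ range (Nat.log 2 n + 1) := by
      rw [hI, mem_product] at hi
      exact hi.1
    have hlt := hlog3 i.1 his
    have hlt0 : 0 ≤ Real.log (((2 ^ i.1 : ℕ) : ℝ) + 2) := by
      refine Real.log_nonneg ?_
      have : (0 : ℝ) ≤ ((2 ^ i.1 : ℕ) : ℝ) := Nat.cast_nonneg _
      linarith
    have h11 := SUG_dc D Ω (2 ^ i.1 * i.2.2.1, 2 ^ i.1 * i.2.2.2) (4 * 2 ^ i.1) w hw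
    have ht1 : (1 : ℝ) ≤ ((2 ^ i.1 : ℕ) : ℝ) := by exact_mod_cast Nat.one_le_two_pow
    have h14 : (2 * ((4 * 2 ^ i.1 : ℕ) : ℝ) + 1) ^ 2 ≤ 81 * (((2 ^ i.1 : ℕ) : ℝ)) ^ 2 := by
      have e : ((4 * 2 ^ i.1 : ℕ) : ℝ) = 4 * ((2 ^ i.1 : ℕ) : ℝ) := by push_cast; ring
      rw [e]
      nlinarith
    have hpos : (0 : ℝ) < (((2 ^ i.1 : ℕ) : ℝ)) ^ 2 := by positivity
    rw [← sum_div, ← mul_sum, div_le_iff₀ hpos]
    have hp : Real.log (((2 ^ i.1 : ℕ) : ℝ) + 2) ^ R ≤ (2 * Real.log n) ^ R :=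
      pow_le_pow_left₀ hlt0 hlt R
    have hX : ∑ v₀ ∈ D, ∑ v ∈ Ω.filter (fun v => sd (v₀.1 + 2 ^ i.1 * i.2.2.1, v₀.2 + 2 ^ i.1 * i.2.2.2) v ≤ 4 * 2 ^ i.1), w v ≤
        81 * (((2 ^ i.1 : ℕ) : ℝ)) ^ 2 * W :=
      h11.trans (mul_le_mul_of_nonneg_right h14 hW0)
    have hX0 : 0 ≤ ∑ v₀ ∈ D, ∑ v ∈ Ω.filter (fun v => sd (v₀.1 + 2 ^ i.1 * i.2.2.1, v₀.2 + 2 ^ i.1 * i.2.2.2) v ≤ 4 * 2 ^ i.1), w v :=
      sum_nonneg fun _ _ => sum_nonneg fun v _ => hw v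
    have hCK : 0 ≤ C₀ * K := by positivity
    have hY : C₀ * K * Real.log (((2 ^ i.1 : ℕ) : ℝ) + 2) ^ R ≤ C₀ * K * (2 * Real.log n) ^ R :=
      mul_le_mul_of_nonneg_left hp hCK
    refine (mul_le_mul hY hX hX0 (by positivity)).trans (le_of_eq ?_)
    ring
  have h18 : ∑ v₀ ∈ D, Pr {β | BAD (col β) (S β) v₀} ≤ 401 ^ 2 * (K * Real.log 4 ^ R * W) +
      #I * (C₀ * K * (2 * Real.log n) ^ R * (81 * W)) := by
    refine (sum_le_sum h1).trans ?_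
    rw [sum_add_distrib]
    refine add_le_add h9 ?_
    rw [sum_comm]
    have h19 := sum_le_card_nsmul I _ _ h12
    rwa [nsmul_eq_mul] at h19
  refine h18.trans ?_
  rw [hIc]
  have b1 : 401 ^ 2 * (K * Real.log 4 ^ R * W) ≤
      401 ^ 2 * (K * Real.log 4 ^ R * W) * (2 * Real.log n) ^ (R + 1) :=
    le_mul_of_one_le_right (by positivity) (one_le_pow₀ hlog1)
  have b2 : ((Nat.log 2 n + 1 : ℕ) : ℝ) * (2 * 801 ^ 2) * (C₀ * K * (2 * Real.log n) ^ R * (81 * W)) ≤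
      (4 * Real.log n) * (2 * 801 ^ 2) * (C₀ * K * (2 * Real.log n) ^ R * (81 * W)) := by
    refine mul_le_mul_of_nonneg_right ?_ (by positivity)
    exact mul_le_mul_of_nonneg_right hlog2 (by norm_num)
  refine (add_le_add b1 b2).trans (le_of_eq ?_)
  rw [mul_pow, mul_pow]
  ring

end TP.TW
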